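import Pool.Agent.R384.NormL
import Pool.Agent.W571.RK.L3

/-!
# From the inertia group to the decomposition group, for a quotient of the representation
-/

set_option autoImplicit false
set_option linter.unusedSectionVars false

namespace Pool.Agent.N842

open Pool.Agent.Y715.Red Pool.Agent.Y715.Nr Pool.Agent.W237.RK
open Pool.Agent.Y715.Gi (QB KK GK i₀_mem gk_fix)
open Pool.Agent.Y715.Df (Cmp exists_cmp)
open Pool.Agent.Y715.Lc (norm_two_odd)
open Pool.Agent.R384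

open scoped Classical

section comm

variable {p : ℕ} [Fact p.Prime]

/-- the automorphisms commute on the roots of unity -/
lemma comm_rou (σ τ : Au p) {ζ : PadicAlgCl p} {m : ℕ} (hm : 0 < m) (h : ζ ^ m = 1) :
    σ (τ ζ) = τ (σ ζ) := by
  have : NeZero m := ⟨hm.ne'⟩
  set u : rootsOfUnity m (PadicAlgCl p) := rootsOfUnity.mkOfPowEq ζ h with hu
  obtain ⟨a, ha⟩ := rootsOfUnity.integer_power_of_ringEquiv m σ.toRingEquiv
  obtain ⟨b, hb⟩ := rootsOfUnity.integer_power_of_ringEquiv m τ.toRingEquiv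
  have hv : ((u : (PadicAlgCl p)ˣ) : PadicAlgCl p) = ζ := rootsOfUnity.coe_mkOfPowEq h
  have ha' := ha u
  have hb' := hb u
  rw [Units.val_zpow_eq_zpow_val, hv] at ha' hb'
  have h1 : σ ζ = ζ ^ a := ha'
  have h2 : τ ζ = ζ ^ b := hb'
  rw [h2, h1, map_zpow₀, map_zpow₀, h1, h2, ← zpow_mul, ← zpow_mul, mul_comm]

/-- the automorphisms commute on the residue field -/
lemma comm_res (σ τ : Au p) {z : PadicAlgCl p} (hz : ‖z‖ ≤ 1) : ‖σ (τ z) - τ (σ z)‖ < 1 := by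
  obtain ⟨ζ, hζ, hn⟩ := Pool.Agent.W571.RK.l3 p z hz
  have h0 : σ (τ ζ) = τ (σ ζ) := by
    rcases hζ with rfl | ⟨M, hM, h⟩
    · simp
    · refine comm_rou σ τ (m := M) ?_ h
      exact Nat.pos_of_ne_zero fun h0 => hM (h0 ▸ dvd_zero p)
  have e : σ (τ z) - τ (σ z) = σ (τ (z - ζ)) + -(τ (σ (z - ζ))) := by
    rw [map_sub, map_sub, map_sub, map_sub, h0]
    ring
  rw [e]
  refine add_lt ?_ ?_
  · rwa [nrm, nrm]
  · rwa [norm_neg, nrm, nrm]

end comm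

section abs

variable {G V : Type} [Group G] [AddCommGroup V] [Module ℚ_[2] V] [FiniteDimensional ℚ_[2] V]

/-- the abstract form: `D / I` is abelian and an element of `D` has no fixed vector -/
lemma cob_of_inr (A : G → V →ₗ[ℚ_[2]] V) {D I : Set G}
    (hID : ∀ σ ∈ I, σ ∈ D) (hDm : ∀ σ ∈ D, ∀ τ ∈ D, σ * τ ∈ D)
    (hA : ∀ σ ∈ D, ∀ τ ∈ D, ∀ v, A (σ * τ) v = A σ (A τ v))
    (hconj : ∀ τ ∈ D, ∀ η ∈ I, τ⁻¹ * η * τ ∈ I)
    (hcomm : ∀ σ ∈ D, ∀ τ ∈ D, (τ * σ)⁻¹ * (σ * τ) ∈ I) {F : G} (hF : F ∈ D)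
    (hF0 : ∀ v, A F v = v → v = 0) {c : G → V}
    (hc : ∀ σ ∈ D, ∀ τ ∈ D, c (σ * τ) = c σ + A σ (c τ)) (hcI : ∀ σ ∈ I, c σ = 0) :
    ∃ z, ∀ σ ∈ D, c σ = A σ z - z := by
  let W : Submodule ℚ_[2] V :=
    { carrier := {v | ∀ η ∈ I, A η v = v}
      add_mem' := fun {u v} hu hv σ hσ => by rw [map_add, hu σ hσ, hv σ hσ]
      zero_mem' := fun σ _ => map_zero _
      smul_mem' := fun a v hv σ hσ => by rw [map_smul, hv σ hσ] }
  have hW : ∀ v, v ∈ W ↔ ∀ σ ∈ I, A σ v = v := fun v => Iff.rfl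
  -- the conjugates
  have hAF : ∀ σ ∈ D, ∀ v ∈ W, A σ v ∈ W := by
    intro σ hσ v hv
    rw [hW]
    intro η hη
    have h1 := hv (σ⁻¹ * η * σ) (hconj σ hσ η hη)
    have e : η * σ = σ * (σ⁻¹ * η * σ) := by group
    rw [← hA η (hID η hη) σ hσ, e, hA σ hσ _ (hID _ (hconj σ hσ η hη)), h1]
  have hcW : ∀ τ ∈ D, c τ ∈ W := by
    intro τ hτ
    rw [hW]
    intro η hη
    have h1 := hc η (hID η hη) τ hτ
    have h2 := hc τ hτ _ (hID _ (hconj τ hτ η hη))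
    have e : τ * (τ⁻¹ * η * τ) = η * τ := by group
    rw [e, h1, hcI η hη, hcI _ (hconj τ hτ η hη), map_zero, add_zero, zero_add] at h2
    exact h2
  have hL : ∀ v ∈ W, (A F - LinearMap.id : V →ₗ[ℚ_[2]] V) v ∈ W := by
    intro v hv
    exact W.sub_mem (hAF F hF v hv) hv
  have hinj : Function.Injective ((A F - LinearMap.id : V →ₗ[ℚ_[2]] V).restrict hL) := by
    rw [← LinearMap.ker_eq_bot, LinearMap.ker_eq_bot']
    intro v hv
    have h2 : A F v.1 - v.1 = 0 := congrArg Subtype.val hv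
    exact Subtype.ext (hF0 v.1 (sub_eq_zero.1 h2))
  obtain ⟨z, hz⟩ := LinearMap.surjective_of_injective hinj ⟨_, hcW F hF⟩
  have hz' : A F z.1 - z.1 = c F := congrArg Subtype.val hz
  refine ⟨z.1, fun σ hσ => ?_⟩
  -- the difference
  have hηI := hcomm σ hσ F hF
  have hηD := hID _ hηI
  have e : σ * F = (F * σ) * ((F * σ)⁻¹ * (σ * F)) := by group
  have h1 : c (σ * F) = c (F * σ) := by
    rw [e, hc _ (hDm F hF σ hσ) _ hηD, hcI _ hηI, map_zero, add_zero]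
  have h2 : A (σ * F) z.1 = A (F * σ) z.1 := by
    rw [e, hA _ (hDm F hF σ hσ) _ hηD, z.2 _ hηI]
  rw [hc σ hσ F hF, hc F hF σ hσ, ← hz'] at h1
  rw [hA σ hσ F hF, hA F hF σ hσ] at h2
  have h3 : A F (c σ - (A σ z.1 - z.1)) = c σ - (A σ z.1 - z.1) := by
    rw [map_sub] at h1 ⊢
    rw [map_sub, ← h2]
    have h4 : A F (c σ) = c σ + (A σ (A F z.1) - A σ z.1) - (A F z.1 - z.1) := by
      rw [h1]; abel
    rw [h4]
    abel
  exact sub_eq_zero.1 (hF0 _ h3)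

end abs

section vec

variable {B : Type} [Fintype B] {i₀ : QB} (hi : i₀ ^ 2 = i₀ - 2) {p : ℕ} [Fact p.Prime]
  {ι : QB →ₐ[ℚ] PadicAlgCl p}

lemma dd_mul {σ τ : GK i₀} (h : σ ∈ DD ι) (h' : τ ∈ DD ι) : σ * τ ∈ DD ι := by
  obtain ⟨s, hs⟩ := h
  obtain ⟨t, ht⟩ := h'
  exact ⟨s * t, hs.mul ht⟩

lemma cmp_inv {s : Au p} {σ : GK i₀} (h : Cmp ι s σ) : Cmp ι s⁻¹ σ⁻¹ := by
  intro x
  have h5 := h (σ⁻¹ x)
  rw [← AlgEquiv.mul_apply σ σ⁻¹, mul_inv_cancel, AlgEquiv.one_apply] at h5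
  rw [← h5, ← AlgEquiv.mul_apply s⁻¹ s, inv_mul_cancel, AlgEquiv.one_apply]

lemma dd_comm {σ τ : GK i₀} (h : σ ∈ DD ι) (h' : τ ∈ DD ι) : (τ * σ)⁻¹ * (σ * τ) ∈ II ι := by
  obtain ⟨s, hs⟩ := h
  obtain ⟨t, ht⟩ := h'
  refine ⟨(t * s)⁻¹ * (s * t), (cmp_inv (ht.mul hs)).mul (hs.mul ht), ?_⟩
  intro z hz
  have e : ((t * s)⁻¹ * (s * t)) z - z = (t * s)⁻¹ (s (t z) - t (s z)) := by
    rw [map_sub, AlgEquiv.mul_apply, AlgEquiv.mul_apply, ← AlgEquiv.mul_apply t s,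
      ← AlgEquiv.mul_apply (t * s)⁻¹ (t * s), inv_mul_cancel, AlgEquiv.one_apply]
  rw [e, nrm]
  exact comm_res s t hz

variable {R : Representation ℚ_[2] (GK i₀) (B → ℚ_[2])} {rt : B → QB} {mm : B → OO}

/-- **From the inertia group to the decomposition group.** -/
theorem vcobs_dec (vd : VD hi R rt mm) {S : Set B}
    (hst : ∀ σ ∈ (DD ι : Set (GK i₀)), ∀ v : B → ℚ_[2], (∀ b ∈ S, v b = 0) → ∀ b ∈ S, R σ v b = 0)
    {F : GK i₀} (hF : F ∈ (DD ι : Set (GK i₀))) (hFr : ∀ b, F (rt b) = -rt b)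
    {c : GK i₀ → B → ℚ_[2]} (hc : VCoc R c) (h : VCobS R S (II ι) c) : VCobS R S (DD ι) c := by
  obtain ⟨y, hy⟩ := h
  -- the extension by zero and the restriction
  let ex : (S → ℚ_[2]) →ₗ[ℚ_[2]] (B → ℚ_[2]) :=
    { toFun := fun v b => if hb : b ∈ S then v ⟨b, hb⟩ else 0
      map_add' := fun u v => by
        funext b
        show (if hb : b ∈ S then (u + v) ⟨b, hb⟩ else 0) = (if hb : b ∈ S then u ⟨b, hb⟩ else 0) +
          (if hb : b ∈ S then v ⟨b, hb⟩ else 0)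
        split_ifs
        · rfl
        · rw [add_zero]
      map_smul' := fun a v => by
        funext b
        show (if hb : b ∈ S then (a • v) ⟨b, hb⟩ else 0) = a * (if hb : b ∈ S then v ⟨b, hb⟩ else 0)
        split_ifs
        · rfl
        · rw [mul_zero] }
  let rs : (B → ℚ_[2]) →ₗ[ℚ_[2]] (S → ℚ_[2]) :=
    { toFun := fun v b => v b.1
      map_add' := fun _ _ => rfl
      map_smul' := fun _ _ => rfl }
  have hex : ∀ (v : S → ℚ_[2]) (b : B) (hb : b ∈ S), ex v b = v ⟨b, hb⟩ := by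
    intro v b hb
    show (if hb : b ∈ S then v ⟨b, hb⟩ else 0) = _
    rw [dif_pos hb]
  have hex0 : ∀ (v : S → ℚ_[2]) (b : B), b ∉ S → ex v b = 0 := by
    intro v b hb
    show (if hb : b ∈ S then v ⟨b, hb⟩ else 0) = _
    rw [dif_neg hb]
  have hrs : ∀ (v : B → ℚ_[2]) (b : S), rs v b = v b.1 := fun _ _ => rfl
  -- the vectors `v` and `ex (rs v)` have the same coordinates in `S`
  have hsame : ∀ σ ∈ (DD ι : Set (GK i₀)), ∀ v : B → ℚ_[2], rs (R σ (ex (rs v))) = rs (R σ v) := by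
    intro σ hσ v
    funext b
    rw [hrs, hrs]
    have h1 := hst σ hσ (ex (rs v) - v) (fun b hb => by
      rw [Pi.sub_apply, hex _ _ hb, hrs, sub_self]) b.1 b.2
    rw [map_sub, Pi.sub_apply] at h1
    exact sub_eq_zero.1 h1
  let A : GK i₀ → (S → ℚ_[2]) →ₗ[ℚ_[2]] (S → ℚ_[2]) := fun σ => rs.comp ((R σ).comp ex)
  have hAa : ∀ σ v, A σ v = rs (R σ (ex v)) := fun _ _ => rfl
  have hFA : ∀ v, A F v = v → v = 0 := by
    intro v hv
    have h1 : ‖ex v‖ ≤ 2 * (‖ex v‖ / 4) := by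
      rw [pi_norm_le_iff_of_nonneg (by positivity)]
      intro b
      by_cases hb : b ∈ S
      · refine two_le hi vd (hFr b) (by linarith) ?_
        have h2 := congrFun hv ⟨b, hb⟩
        rw [hAa, hrs] at h2
        rw [Pi.sub_apply, hex v b hb, h2, sub_self, norm_zero]
        positivity
      · rw [hex0 v b hb, norm_zero]
        positivity
    have h2 : ‖ex v‖ = 0 := by
      have := norm_nonneg (ex v)
      linarith
    have h3 := norm_eq_zero.1 h2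
    funext b
    have h4 := congrFun h3 b.1
    rw [hex v b.1 b.2] at h4
    exact h4
  obtain ⟨z, hz⟩ := cob_of_inr A (D := DD ι) (I := II ι) (fun σ hσ => II_sub hσ)
    (fun σ hσ τ hτ => dd_mul hσ hτ)
    (fun σ hσ τ hτ v => by rw [hAa, hAa, hAa, hsame σ hσ, Pool.Agent.R384.R_mul])
    (fun τ hτ η hη => conj_mem hη hτ) (fun σ hσ τ hτ => dd_comm hσ hτ) hF hFA
    (c := fun σ => rs (c σ - (R σ y - y)))
    (fun σ hσ τ hτ => by
      show rs (c (σ * τ) - (R (σ * τ) y - y)) = rs (c σ - (R σ y - y)) +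
        rs (R σ (ex (rs (c τ - (R τ y - y)))))
      rw [hsame σ hσ, hc.mul, Pool.Agent.R384.R_mul, ← map_add]
      congr 1
      rw [map_sub, map_sub]
      abel)
    (fun σ hσ => by
      funext b
      show (c σ - (R σ y - y)) b.1 = 0
      rw [Pi.sub_apply, hy σ hσ b.1 b.2, sub_self])
  refine ⟨y + ex z, fun σ hσ b hb => ?_⟩
  have h1 := congrFun (hz σ hσ) ⟨b, hb⟩
  have h2 : (c σ - (R σ y - y)) b = R σ (ex z) b - z ⟨b, hb⟩ := h1
  rw [Pi.sub_apply] at h2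
  rw [map_add, Pi.sub_apply, Pi.add_apply, Pi.add_apply, hex z b hb]
  rw [Pi.sub_apply] at h2
  linear_combination h2

end vec

end Pool.Agent.N842
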